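import Pool.Agent.H27.Udim

set_option autoImplicit false

namespace Pool.Agent.Results.MP_529953_al.CharP

open Pool.Agent.H27

theorem result :
    ∀ p : ℕ, p.Prime → ∀ (k : Type) [Field k] [CharP k p],
      ∃ (G : Type) (_ : Group G), Amen.Amenable G ∧
        (∀ F : Subgroup G, Finite F → ¬ p ∣ Nat.card F → Nat.card F ≤ 1) ∧
        ∀ n : ℕ, ∃ I : Fin n → Submodule (MonoidAlgebra k G)ᵐᵒᵖ (MonoidAlgebra k G),
          (∀ i, I i ≠ ⊥) ∧ iSupIndep I := by
  intro p hp k _ _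
  haveI : Fact p.Prime := ⟨hp⟩
  haveI := Udim.solv (p := p)
  exact ⟨Udim.Gp p, inferInstance, Amen.amenable_of_solvable, Udim.small, fun n =>
    ⟨fun i => Udim.I k p i, fun i => Udim.I_ne k i, (Udim.I_indep k).comp Fin.val_injective⟩⟩

end Pool.Agent.Results.MP_529953_al.CharP
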